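import Pool.Agent.Lib.BE.SpecC

/-!
PROJECT BE, module BfC: Bombieri-Vinogradov for the multiples of q and the class c mod q (port of CG/Bq/BqF.lean)
-/

namespace Pool.Agent.Lib.BE

open Finset Pool.Agent.Lib.BV
open Pool.Agent.Lib.MP_9f2731_nt.QL Pool.Agent.Lib.MP_9f2731_nt.QL.Pw
open Pool.Agent.Lib.MP_9f2731_nt.CG Pool.Agent.Lib.MP_9f2731_nt.CG.Bq

private theorem BfC_card (X q c : ℕ) (hq1 : 1 ≤ q) (hc : c ≤ 4 * q) :
    ((Icc 1 (q * X + c)).filter (fun p => p.Prime ∧ p ≡ c [MOD q])).card ≤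
      ((Icc 1 X).filter (fun b => (q * b + c).Prime)).card + 4 := by
  have hsub : (Icc 1 (q * X + c)).filter (fun p => p.Prime ∧ p ≡ c [MOD q]) ⊆
      (((Icc 1 X).filter (fun b => (q * b + c).Prime)).image (fun b => q * b + c)) ∪
        ((range 4).image (fun j => c - q * j)) := by
    intro p hp
    obtain ⟨h1, h2, h3⟩ := Finset.mem_filter.mp hp
    obtain ⟨h4, h5⟩ := Finset.mem_Icc.mp h1
    rcases Nat.lt_or_ge c p with hcp | hcp
    · obtain ⟨b, hb⟩ := (Nat.modEq_iff_dvd' hcp.le).mp h3.symm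
      have h8 : p = q * b + c := by omega
      have hb1 : 1 ≤ b := by
        rcases Nat.eq_zero_or_pos b with h | h
        · rw [h, mul_zero] at h8
          omega
        · exact h
      have hbX : b ≤ X := by
        have : q * b ≤ q * X := by omega
        exact Nat.le_of_mul_le_mul_left this hq1
      refine Finset.mem_union_left _ (Finset.mem_image.mpr ⟨b, Finset.mem_filter.mpr
        ⟨Finset.mem_Icc.mpr ⟨hb1, hbX⟩, ?_⟩, h8.symm⟩)
      rw [← h8]
      exact h2
    · obtain ⟨j, hj⟩ := (Nat.modEq_iff_dvd' hcp).mp h3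
      have hj4 : j < 4 := by
        by_contra hcon
        have h9 : q * 4 ≤ q * j := Nat.mul_le_mul_left q (by omega)
        omega
      refine Finset.mem_union_right _ (Finset.mem_image.mpr ⟨j, Finset.mem_range.mpr hj4, ?_⟩)
      show c - q * j = p
      omega
  refine (Finset.card_le_card hsub).trans ((Finset.card_union_le _ _).trans ?_)
  refine Nat.add_le_add Finset.card_image_le (Finset.card_image_le.trans ?_)
  simp

theorem tBfC (h1 : ExGStmt) (h2 : ApCStmt) (h3 : BsCStmt) : BfCStmt := by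
  obtain ⟨c3, hc3, hE⟩ := h1
  obtain ⟨x0, hx0⟩ := h2 c3 hc3
  obtain ⟨X1, hX1S⟩ := h3 c3 hc3
  refine ⟨1 / 200, by norm_num, fun w1 => ?_⟩
  obtain ⟨y0, hy0⟩ := hE w1
  obtain ⟨T, hT⟩ : ∃ T : ℝ, T = max 2 y0 := ⟨_, rfl⟩
  have hT2 : 2 ≤ T := by rw [hT]; exact le_max_left _ _
  have hTy : y0 ≤ T := by rw [hT]; exact le_max_right _ _
  refine ⟨max (max x0 X1) (Real.exp (T ^ 200)), fun X hX => ?_⟩
  have hX1 : x0 ≤ X := ((le_max_left _ _).trans (le_max_left _ _)).trans hX
  have hX1' : X1 ≤ X := ((le_max_right _ _).trans (le_max_left _ _)).trans hX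
  have hX2 : Real.exp (T ^ 200) ≤ X := (le_max_right _ _).trans hX
  have hX0 : (0 : ℝ) < X := (Real.exp_pos _).trans_le hX2
  obtain ⟨L, hL⟩ : ∃ L : ℝ, L = Real.log X := ⟨_, rfl⟩
  have hLc : T ^ 200 ≤ L := by
    rw [hL, Real.le_log_iff_exp_le hX0]
    exact hX2
  have hT0 : 0 < T := by linarith
  have hL0 : 0 < L := (by positivity : 0 < T ^ 200).trans_le hLc
  obtain ⟨u, hu⟩ : ∃ u : ℝ, u = L ^ ((1 : ℝ) / 200) := ⟨_, rfl⟩
  have hu200 : L = u ^ 200 := by
    rw [hu, ← Real.rpow_natCast, ← Real.rpow_mul hL0.le]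
    norm_num
  have hupos : 0 < u := by rw [hu]; exact Real.rpow_pos_of_pos hL0 _
  have huT : T ≤ u := by
    have : T ^ 200 ≤ u ^ 200 := by rw [← hu200]; exact hLc
    exact le_of_pow_le_pow_left₀ (by norm_num) hupos.le this
  have hu2 : 2 ≤ u := hT2.trans huT
  have hu1 : 1 ≤ u := by linarith
  have hyu : yX X = u ^ 2 := by
    unfold yX
    rw [← hL, hu, ← Real.rpow_natCast, ← Real.rpow_mul hL0.le]
    norm_num
  obtain ⟨y, hy⟩ : ∃ y : ℝ, y = yX X := ⟨_, rfl⟩
  have hyu' : y = u ^ 2 := by rw [hy, hyu]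
  have huy : u ≤ y := by rw [hyu']; nlinarith
  have hy1 : 1 ≤ y := by linarith
  have hL8 : 8 * u ≤ L := by
    have e1 : u ^ 4 ≤ u ^ 200 := pow_le_pow_right₀ hu1 (by norm_num)
    have e2 : (2 : ℝ) ^ 3 ≤ u ^ 3 := pow_le_pow_left₀ (by norm_num) hu2 3
    have e3 : u ^ 4 = u ^ 3 * u := by ring
    have e4 : (2 : ℝ) ^ 3 * u ≤ u ^ 3 * u := mul_le_mul_of_nonneg_right e2 hupos.le
    rw [hu200]
    linarith
  have hL96 : 96 ≤ L := by
    have e1 : u ^ 7 ≤ u ^ 200 := pow_le_pow_right₀ hu1 (by norm_num)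
    have e2 : (2 : ℝ) ^ 7 ≤ u ^ 7 := pow_le_pow_left₀ (by norm_num) hu2 7
    rw [hu200]
    linarith
  have hX48 : 48 * L ≤ X := by
    have e1 : (X : ℝ) = Real.exp L := by rw [hL, Real.exp_log hX0]
    have e2 := Real.quadratic_le_exp_of_nonneg hL0.le
    have e3 : 96 * L ≤ L * L := mul_le_mul_of_nonneg_right hL96 hL0.le
    rw [e1]
    have e4 : L ^ 2 = L * L := sq L
    linarith
  have hX3 : (1 : ℝ) ≤ X := by
    have : (1 : ℝ) ≤ Real.exp (T ^ 200) := Real.one_le_exp (by positivity)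
    linarith
  obtain ⟨p0, hp0, hw, hp⟩ := hy0 y (hTy.trans (huT.trans huy))
  refine ⟨p0, hp0, hw, fun q c hq1 hpq hlq hc1 hc4 hcq => ?_⟩
  have hlq' := hlq
  rw [← hL, ← hu] at hlq
  refine ⟨?_, ?_⟩
  · have hqr1 : (1 : ℝ) ≤ (q : ℝ) := by exact_mod_cast hq1
    have hcr : (c : ℝ) ≤ 4 * q := by exact_mod_cast hc4
    have hcr0 : (0 : ℝ) ≤ c := Nat.cast_nonneg c
    obtain ⟨x, hx⟩ : ∃ x : ℝ, x = ((q * X + c : ℕ) : ℝ) := ⟨_, rfl⟩
    have hx' : x = q * X + c := by rw [hx]; push_cast; ring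
    have hXx : (X : ℝ) ≤ x := by
      have h1 := mul_le_mul_of_nonneg_right hqr1 hX0.le
      rw [hx']
      linarith
    have hLx : L ≤ Real.log x := by rw [hL]; exact Real.log_le_log hX0 hXx
    have hyx : y ≤ (Real.log x) ^ ((1 : ℝ) / 100) := by
      refine le_trans ?_ (Real.rpow_le_rpow hL0.le hLx (by norm_num))
      rw [hy]
      unfold yX
      rw [← hL]
    have h1 := hx0 x y q c (hX1.trans hXx) hy1 hyx hq1 (hlq.trans huy) hcq (by
      intro q1 _ χ1 hq1q hq12 hχ1 hsq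
      refine hp q1 χ1 hq12 ?_ (fun h => hpq (h.trans hq1q)) hχ1 hsq
      refine le_trans (Real.log_le_log (by have : (2 : ℝ) ≤ q1 := by exact_mod_cast hq12
                                           linarith) ?_) (hlq.trans huy)
      exact_mod_cast Nat.le_of_dvd hq1 hq1q)
    have hfl : ⌊x⌋₊ = q * X + c := by rw [hx, Nat.floor_natCast]
    rw [hfl] at h1
    have h2 := BfC_card X q c hq1 hc4
    have h3 : (((Icc 1 (q * X + c)).filter (fun p => p.Prime ∧ p ≡ c [MOD q])).card : ℝ) ≤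
        npqC X q c + 4 := by
      unfold npqC
      exact_mod_cast h2
    have hφ : (0 : ℝ) < (q.totient : ℝ) := by exact_mod_cast Nat.totient_pos.mpr hq1
    have hφq : (q.totient : ℝ) ≤ q := by exact_mod_cast Nat.totient_le q
    have hqX1 : 1 ≤ (q : ℝ) * X := one_le_mul_of_one_le_of_one_le hqr1 hX3
    have hlx : Real.log x ≤ 3 / 2 * L := by
      have h4 : x ≤ 5 * q * X := by
        rw [hx']
        have h5 : (q : ℝ) * 1 ≤ q * X := mul_le_mul_of_nonneg_left hX3 (by linarith)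
        linarith
      have h5 : Real.log x ≤ Real.log (5 * q * X) := Real.log_le_log (by linarith) h4
      rw [Real.log_mul (by positivity) (by positivity), Real.log_mul (by positivity) (by positivity),
        ← hL] at h5
      have h6 : Real.log 5 ≤ 4 := by
        have := Real.log_le_sub_one_of_pos (show (0 : ℝ) < 5 by norm_num)
        linarith
      linarith
    have hlx0 : 0 < Real.log x := by linarith
    rw [← hL]
    have hqX : 0 ≤ (q : ℝ) * X := by linarith
    have hmain : (q * X) / (2 * (q.totient : ℝ) * (3 / 2 * L)) ≤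
        x / (2 * (q.totient : ℝ) * Real.log x) := by
      calc (q * X : ℝ) / (2 * (q.totient : ℝ) * (3 / 2 * L)) ≤
            (q * X) / (2 * (q.totient : ℝ) * Real.log x) :=
            div_le_div_of_nonneg_left hqX (by positivity)
              (mul_le_mul_of_nonneg_left hlx (by positivity))
        _ ≤ x / (2 * (q.totient : ℝ) * Real.log x) := by
            apply div_le_div_of_nonneg_right _ (by positivity)
            rw [hx']
            linarith
    have hr : (1 : ℝ) ≤ (q : ℝ) / q.totient := by rw [le_div_iff₀ hφ]; linarith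
    have hXL : 48 ≤ (X : ℝ) / L := by rw [le_div_iff₀ hL0]; linarith
    have hZ : 48 ≤ ((q : ℝ) / q.totient) * X / L := by
      rw [mul_div_assoc]
      have := one_mul ((X : ℝ) / L)
      calc (48 : ℝ) ≤ X / L := hXL
        _ = 1 * (X / L) := this.symm
        _ ≤ ((q : ℝ) / q.totient) * (X / L) := mul_le_mul_of_nonneg_right hr (by linarith)
    have e1 : (q * X : ℝ) / (2 * (q.totient : ℝ) * (3 / 2 * L)) =
        1 / 3 * (((q : ℝ) / q.totient) * X / L) := by
      field_simp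
    rw [e1] at hmain
    linarith
  · refine hX1S X q c p0 hX1' hq1 hc1 hc4 hcq hp0 hpq hlq' ?_
    intro q1 _ χ1 hq12 hlq1 hpq1 hprim hsq
    rw [← hy] at hlq1 ⊢
    exact hp q1 χ1 hq12 hlq1 hpq1 hprim hsq

end Pool.Agent.Lib.BE
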