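import Pool.Agent.Lib.BE.SpecC

namespace Pool.Agent.Lib.BE

open Finset Pool.Agent.Lib.BV
open Pool.Agent.Lib.MP_9f2731_nt.QL Pool.Agent.Lib.MP_9f2731_nt.QL.Pw
open Pool.Agent.Lib.MP_9f2731_nt.CG Pool.Agent.Lib.MP_9f2731_nt.CG.Bq

private lemma BtC_cls (X q c D l : ℕ) :
    cls (Px ((q * X + c : ℕ) : ℝ)) (4 * ⌊((q * X + c : ℕ) : ℝ)⌋₊) D l =
      ((((Icc 1 (4 * (q * X + c))).filter (fun n => n ≡ l [MOD D])).filter
        (fun n => n.Prime ∧ n ≤ q * X + c)).card : ℂ) := by
  rw [Nat.floor_natCast]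
  unfold cls
  rw [Finset.card_filter, Nat.cast_sum]
  refine Finset.sum_congr rfl (fun n _ => ?_)
  unfold Px PY
  by_cases hn : n.Prime ∧ n ≤ q * X + c
  · have hn' : n.Prime ∧ (n : ℝ) ≤ ((q * X + c : ℕ) : ℝ) := ⟨hn.1, by exact_mod_cast hn.2⟩
    rw [if_pos hn', if_pos hn]
    simp
  · have hn' : ¬ (n.Prime ∧ (n : ℝ) ≤ ((q * X + c : ℕ) : ℝ)) := by
      intro hh
      exact hn ⟨hh.1, by exact_mod_cast hh.2⟩
    rw [if_neg hn', if_neg hn]
    simp

private lemma BtC_card (X q c D l : ℕ) (P : ℕ → Prop) [DecidablePred P] (hq : 1 ≤ q)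
    (hcq : c ≤ 4 * q)
    (h : ∀ b, 1 ≤ b → b ≤ X → ((q * b + c) ≡ l [MOD D] ↔ P b))
    (h' : ∀ n, n ≡ l [MOD D] → n ≡ c [MOD q]) :
    ((Icc 1 X).filter (fun b => (q * b + c).Prime ∧ P b)).card ≤
      (((Icc 1 (4 * (q * X + c))).filter (fun n => n ≡ l [MOD D])).filter
        (fun n => n.Prime ∧ n ≤ q * X + c)).card ∧
    (((Icc 1 (4 * (q * X + c))).filter (fun n => n ≡ l [MOD D])).filter
        (fun n => n.Prime ∧ n ≤ q * X + c)).card ≤
      4 + ((Icc 1 X).filter (fun b => (q * b + c).Prime ∧ P b)).card := by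
  set A : Finset ℕ := ((Icc 1 (4 * (q * X + c))).filter (fun n => n ≡ l [MOD D])).filter
        (fun n => n.Prime ∧ n ≤ q * X + c) with hA
  set B : Finset ℕ := (Icc 1 X).filter (fun b => (q * b + c).Prime ∧ P b) with hB
  have himg : (B.image (fun b => q * b + c)).card = B.card := by
    refine Finset.card_image_of_injOn ?_
    intro b _ b' _ hbb
    have hbb' : q * b + c = q * b' + c := hbb
    have h2 : q * b = q * b' := by omega
    exact Nat.eq_of_mul_eq_mul_left (by omega) h2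
  have hsub : B.image (fun b => q * b + c) ⊆ A := by
    intro n hn
    obtain ⟨b, hb, rfl⟩ := Finset.mem_image.1 hn
    rw [hB] at hb
    simp only [Finset.mem_filter, Finset.mem_Icc] at hb
    obtain ⟨⟨hb1, hb2⟩, hb3, hb4⟩ := hb
    have hle : q * b + c ≤ q * X + c := by
      have := Nat.mul_le_mul_left q hb2
      omega
    have hpos := hb3.pos
    rw [hA]
    simp only [Finset.mem_filter, Finset.mem_Icc]
    exact ⟨⟨⟨by omega, by omega⟩, (h b hb1 hb2).2 hb4⟩, hb3, hle⟩
  have hrest : A \ B.image (fun b => q * b + c) ⊆ {c, c - q, c - 2 * q, c - 3 * q} := by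
    intro n hn
    obtain ⟨hnA, hnB⟩ := Finset.mem_sdiff.1 hn
    rw [hA] at hnA
    simp only [Finset.mem_filter, Finset.mem_Icc] at hnA
    obtain ⟨⟨⟨hn1, hn2⟩, hn3⟩, hn4, hn5⟩ := hnA
    have h1 := h' n hn3
    simp only [Finset.mem_insert, Finset.mem_singleton]
    rcases Nat.lt_or_ge c n with hlt | hge
    · exfalso
      obtain ⟨b, hb⟩ := (Nat.modEq_iff_dvd' hlt.le).1 h1.symm
      have hnb : n = q * b + c := by omega
      have hb1 : 1 ≤ b := by
        rcases Nat.eq_zero_or_pos b with h0 | h0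
        · subst h0
          simp at hnb
          omega
        · exact h0
      have hbX : b ≤ X := by
        have h3 : q * b ≤ q * X := by omega
        exact Nat.le_of_mul_le_mul_left h3 (by omega)
      refine hnB (Finset.mem_image.2 ⟨b, ?_, hnb.symm⟩)
      rw [hB]
      simp only [Finset.mem_filter, Finset.mem_Icc]
      exact ⟨⟨hb1, hbX⟩, hnb ▸ hn4, (h b hb1 hbX).1 (hnb ▸ hn3)⟩
    · obtain ⟨k, hk⟩ := (Nat.modEq_iff_dvd' hge).1 h1
      have hk4 : k < 4 := by
        by_contra hcon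
        have h4 : q * 4 ≤ q * k := Nat.mul_le_mul_left q (by omega)
        omega
      interval_cases k
      · left; omega
      · right; left; omega
      · right; right; left; omega
      · right; right; right; omega
  have hcard4 : ({c, c - q, c - 2 * q, c - 3 * q} : Finset ℕ).card ≤ 4 := Finset.card_le_four
  have hle := Finset.card_le_card hrest
  have hle2 := Finset.card_le_card hsub
  have hsum := Finset.card_sdiff_add_card_eq_card hsub
  constructor
  · omega
  · omega

private lemma BtC_key (X q c D l : ℕ) (P : ℕ → Prop) [DecidablePred P] (hq : 1 ≤ q)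
    (hcq : c ≤ 4 * q)
    (h : ∀ b, 1 ≤ b → b ≤ X → ((q * b + c) ≡ l [MOD D] ↔ P b))
    (h' : ∀ n, n ≡ l [MOD D] → n ≡ c [MOD q]) :
    ‖cls (Px ((q * X + c : ℕ) : ℝ)) (4 * ⌊((q * X + c : ℕ) : ℝ)⌋₊) D l -
      ((((Icc 1 X).filter (fun b => (q * b + c).Prime ∧ P b)).card : ℝ) : ℂ)‖ ≤ 5 := by
  rw [BtC_cls]
  obtain ⟨h1, h2⟩ := BtC_card X q c D l P hq hcq h h'
  generalize (((Icc 1 (4 * (q * X + c))).filter (fun n => n ≡ l [MOD D])).filter
        (fun n => n.Prime ∧ n ≤ q * X + c)).card = s at h1 h2 ⊢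
  generalize ((Icc 1 X).filter (fun b => (q * b + c).Prime ∧ P b)).card = t at h1 h2 ⊢
  have h1' : (t : ℝ) ≤ (s : ℝ) := by exact_mod_cast h1
  have h2' : (s : ℝ) ≤ 4 + (t : ℝ) := by exact_mod_cast h2
  have he : ((s : ℂ) - ((t : ℝ) : ℂ)) = (((s : ℝ) - (t : ℝ) : ℝ) : ℂ) := by
    push_cast
    rfl
  rw [he, Complex.norm_real, Real.norm_eq_abs, abs_le]
  constructor <;> linarith

theorem tBtC : BtCStmt := by
  intro X q c d a l hq hd hc hcq hcop h1 h2
  constructor
  · unfold npaC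
    refine BtC_key X q c (q * d) l (fun b => q * b + c ≡ a [MOD d]) hq hcq ?_ ?_
    · intro b hb1 hb2
      rw [← Nat.modEq_and_modEq_iff_modEq_mul hcop]
      constructor
      · intro hh
        exact hh.2.trans h2
      · intro hh
        refine ⟨?_, hh.trans h2.symm⟩
        have : q * b + c ≡ c [MOD q] := by
          unfold Nat.ModEq
          simp [Nat.add_mod]
        exact this.trans h1.symm
    · intro n hn
      exact (hn.of_mul_right d).trans h1
  · unfold npqC
    have hk := BtC_key X q c q c (fun _ => True) hq hcq ?_ ?_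
    · simpa using hk
    · intro b hb1 hb2
      simp only [iff_true]
      unfold Nat.ModEq
      simp [Nat.add_mod]
    · intro n hn
      exact hn

end Pool.Agent.Lib.BE
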